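import Pool.Agent.H44.DG.Targets3
import Pool.Agent.H44.DG.Cert

/-! The openings of the `1 : 1` drawing game: the path with three vertices and the path with four vertices. -/

set_option maxRecDepth 100000

namespace Pool.Agent.H81.DG

open Pool.Agent.H44.DG

/-- the rotations of a list, as pairs head, tail -/
def rotsL (r : List ℕ) : List (ℕ × List ℕ) :=
  (List.range r.length).filterMap fun i => match r.rotate i with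
    | [] => none
    | a :: t => some (a, t)

lemma mem_rotsL {r : List ℕ} {u : ℕ} {l : List ℕ} (h : r ~r (u :: l)) : (u, l) ∈ rotsL r := by
  obtain ⟨n, hn⟩ := h
  have hr : r ≠ [] := by
    rintro rfl
    simp at hn
  have hpos : 0 < r.length := List.length_pos_iff.2 hr
  unfold rotsL
  rw [List.mem_filterMap]
  refine ⟨n % r.length, List.mem_range.2 (Nat.mod_lt _ hpos), ?_⟩
  rw [List.rotate_mod, hn]

theorem c_P3_split_0_2 : Ans2 3 (toLF [(.R 1, [0, 1, 2]), (.R 2, [2, 1, 0])]) :=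
  Or.inl ⟨0, 1, 2, ↑([] : List ℕ), ↑([] : List ℕ), toLF [(.R 1, [0, 1, 2])], toLF [(.R 2, [0, 2, 1])], by decide,
    (show LR (↑([0, 1, 2] : List ℕ)) (↑([] : List ℕ)) (toLF [(.R 1, [0, 1, 2])]) from lr_opn0 0 (by decide) (.R 1) (Or.inr ⟨1, rfl⟩) [0, 1, 2] (by decide) (by decide) (by decide)),
    (show LR (↑([2, 1, 0] : List ℕ)) (↑([] : List ℕ)) (toLF [(.R 2, [0, 2, 1])]) from lr_opn0 0 (by decide) (.R 2) (Or.inr ⟨2, rfl⟩) [0, 2, 1] (by decide) (by decide) (by decide)), by decide⟩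

theorem c_P3_att_0 : Ans2 4 (toLF [(.R 0, [0, 3, 0, 1, 2, 1])]) :=
  Or.inr ⟨toLF [(.R 0, [0, 3, 0, 1, 2]), (.E, [2, 1, 0])], LMove.mkR 0 0 2 [3, 0, 1] [1] (toLF []) _ _ (by decide) (by decide) (by decide) (by decide),
  ⟨0, 2, 1, ↑([] : List ℕ), ↑([3] : List ℕ), toLF [(.E, [0, 2, 1])], toLF [(.R 0, [0, 1, 2, 0, 3])], by decide,
    (show LR (↑([0, 2, 1] : List ℕ)) (↑([] : List ℕ)) (toLF [(.E, [0, 2, 1])]) from lr_opn0 0 (by decide) .E (Or.inl rfl) [0, 2, 1] (by decide) (by decide) (by decide)),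
    (show LR (↑([1, 2, 0] : List ℕ)) (↑([3] : List ℕ)) (toLF [(.R 0, [0, 1, 2, 0, 3])]) from lr_opn0 1 (by decide) (.R 0) (Or.inr ⟨0, rfl⟩) [0, 1, 2, 3] (by decide) (by decide) (by decide)), by decide⟩⟩

theorem c_P3_att_1 : Ans2 4 (toLF [(.R 0, [1, 3, 1, 2, 1, 0])]) :=
  Or.inr ⟨toLF [(.R 0, [3, 1, 2]), (.E, [2, 1, 0, 1, 3])], LMove.mkR 0 3 2 [1] [1, 0, 1] (toLF []) _ _ (by decide) (by decide) (by decide) (by decide),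
  ⟨1, 2, 3, ↑([] : List ℕ), ↑([0] : List ℕ), toLF [(.R 0, [1, 2, 3])], toLF [(.E, [1, 3, 2, 1, 0])], by decide,
    (show LR (↑([1, 2, 3] : List ℕ)) (↑([] : List ℕ)) (toLF [(.R 0, [1, 2, 3])]) from lr_opn0 0 (by decide) (.R 0) (Or.inr ⟨0, rfl⟩) [1, 2, 3] (by decide) (by decide) (by decide)),
    (show LR (↑([3, 2, 1] : List ℕ)) (↑([0] : List ℕ)) (toLF [(.E, [1, 3, 2, 1, 0])]) from lr_opn0 1 (by decide) .E (Or.inl rfl) [1, 3, 2, 0] (by decide) (by decide) (by decide)), by decide⟩⟩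

theorem c_P3_att_2 : Ans2 4 (toLF [(.R 0, [2, 3, 2, 1, 0, 1])]) :=
  Or.inr ⟨toLF [(.R 0, [2, 3, 2, 1, 0]), (.E, [0, 1, 2])], LMove.mkR 0 2 0 [3, 2, 1] [1] (toLF []) _ _ (by decide) (by decide) (by decide) (by decide),
  ⟨0, 1, 2, ↑([] : List ℕ), ↑([3] : List ℕ), toLF [(.E, [0, 1, 2])], toLF [(.R 0, [2, 1, 0, 2, 3])], by decide,
    (show LR (↑([0, 1, 2] : List ℕ)) (↑([] : List ℕ)) (toLF [(.E, [0, 1, 2])]) from lr_opn0 0 (by decide) .E (Or.inl rfl) [0, 1, 2] (by decide) (by decide) (by decide)),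
    (show LR (↑([2, 1, 0] : List ℕ)) (↑([3] : List ℕ)) (toLF [(.R 0, [2, 1, 0, 2, 3])]) from lr_opn0 1 (by decide) (.R 0) (Or.inr ⟨0, rfl⟩) [2, 1, 0, 3] (by decide) (by decide) (by decide)), by decide⟩⟩

theorem c_P3_att_3 : Ans2 4 (toLF [(.R 0, [1, 3, 1, 0, 1, 2])]) :=
  Or.inr ⟨toLF [(.R 0, [3, 1, 0]), (.E, [0, 1, 2, 1, 3])], LMove.mkR 0 3 0 [1] [1, 2, 1] (toLF []) _ _ (by decide) (by decide) (by decide) (by decide),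
  ⟨0, 3, 1, ↑([] : List ℕ), ↑([2] : List ℕ), toLF [(.R 0, [0, 3, 1])], toLF [(.E, [1, 3, 0, 1, 2])], by decide,
    (show LR (↑([0, 3, 1] : List ℕ)) (↑([] : List ℕ)) (toLF [(.R 0, [0, 3, 1])]) from lr_opn0 0 (by decide) (.R 0) (Or.inr ⟨0, rfl⟩) [0, 3, 1] (by decide) (by decide) (by decide)),
    (show LR (↑([1, 3, 0] : List ℕ)) (↑([2] : List ℕ)) (toLF [(.E, [1, 3, 0, 1, 2])]) from lr_opn0 1 (by decide) .E (Or.inl rfl) [1, 3, 0, 2] (by decide) (by decide) (by decide)), by decide⟩⟩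

theorem c_P3_pass : ∃ L', LMove (toLF [(.R 0, [0, 1, 2, 1])]) L' ∧ TwoL 3 L' :=
  ⟨toLF [(.R 0, [0, 1, 2]), (.E, [2, 1, 0])], LMove.mkR 0 0 2 [1] [1] (toLF []) _ _ (by decide) (by decide) (by decide) (by decide),
  ⟨0, 1, 2, ↑([] : List ℕ), ↑([] : List ℕ), toLF [(.R 0, [0, 1, 2])], toLF [(.E, [0, 2, 1])], by decide,
    (show LR (↑([0, 1, 2] : List ℕ)) (↑([] : List ℕ)) (toLF [(.R 0, [0, 1, 2])]) from lr_opn0 0 (by decide) (.R 0) (Or.inr ⟨0, rfl⟩) [0, 1, 2] (by decide) (by decide) (by decide)),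
    (show LR (↑([2, 1, 0] : List ℕ)) (↑([] : List ℕ)) (toLF [(.E, [0, 2, 1])]) from lr_opn0 0 (by decide) .E (Or.inl rfl) [0, 2, 1] (by decide) (by decide) (by decide)), by decide⟩⟩

lemma spl_P3 : ∀ s ∈ spl1 [] [0, 1, 2, 1], s.1 ≠ s.2.1 → ¬ LAdj (toLF [(.R 0, [0, 1, 2, 1])]) s.1 s.2.1 →
    Ans2 3 ((.R 1, (↑s.2.2.1 : Cycle ℕ)) ::ₘ {(.R 2, (↑s.2.2.2 : Cycle ℕ))}) := by
  intro s hs
  simp only [spl1, spl2, List.nil_append, List.cons_append, List.append_nil, List.mem_cons, List.not_mem_nil, or_false] at hs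
  casesm* _ ∨ _ <;> subst_vars <;> first | exact fun _ _ => c_P3_split_0_2 | exact fun h1 _ => absurd rfl h1 | exact fun _ h2 => absurd (by decide) h2

lemma at_P3 (u : ℕ) (l : List ℕ) (h : [0, 1, 2, 1] ~r (u :: l)) :
    Ans2 4 {(.R 0, (↑(joinWalk u l 3 []) : Cycle ℕ))} := by
  have h' : (u, l) ∈ rotsL [0, 1, 2, 1] := mem_rotsL h
  rw [show rotsL [0, 1, 2, 1] = [(0, [1, 2, 1]), (1, [2, 1, 0]), (2, [1, 0, 1]), (1, [0, 1, 2])] from by decide] at h'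
  simp only [List.mem_cons, Prod.mk.injEq, List.not_mem_nil, or_false] at h'
  rcases h' with ⟨rfl, rfl⟩ | ⟨rfl, rfl⟩ | ⟨rfl, rfl⟩ | ⟨rfl, rfl⟩
  · exact c_P3_att_0
  · exact c_P3_att_1
  · exact c_P3_att_2
  · exact c_P3_att_3

theorem c_P4_split_0_2 : Ans2 4 (toLF [(.R 1, [0, 1, 2]), (.R 2, [2, 3, 2, 1, 0])]) :=
  Or.inl ⟨0, 1, 2, ↑([] : List ℕ), ↑([3] : List ℕ), toLF [(.R 1, [0, 1, 2])], toLF [(.R 2, [2, 1, 0, 2, 3])], by decide,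
    (show LR (↑([0, 1, 2] : List ℕ)) (↑([] : List ℕ)) (toLF [(.R 1, [0, 1, 2])]) from lr_opn0 0 (by decide) (.R 1) (Or.inr ⟨1, rfl⟩) [0, 1, 2] (by decide) (by decide) (by decide)),
    (show LR (↑([2, 1, 0] : List ℕ)) (↑([3] : List ℕ)) (toLF [(.R 2, [2, 1, 0, 2, 3])]) from lr_opn0 1 (by decide) (.R 2) (Or.inr ⟨2, rfl⟩) [2, 1, 0, 3] (by decide) (by decide) (by decide)), by decide⟩

theorem c_P4_split_0_3 : Ans2 4 (toLF [(.R 1, [0, 1, 2, 3]), (.R 2, [3, 2, 1, 0])]) :=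
  Or.inr ⟨toLF [(.R 1, [0, 1, 2]), (.E, [2, 3, 0]), (.R 2, [3, 2, 1, 0])], LMove.mkR 1 0 2 [1] [3] (toLF [(.R 2, [3, 2, 1, 0])]) _ _ (by decide) (by decide) (by decide) (by decide),
  ⟨0, 1, 2, ↑([] : List ℕ), ↑([3] : List ℕ), toLF [(.R 1, [0, 1, 2])], toLF [(.R 2, [2, 1, 0, 3]), (.E, [0, 2, 3])], by decide,
    (show LR (↑([0, 1, 2] : List ℕ)) (↑([] : List ℕ)) (toLF [(.R 1, [0, 1, 2])]) from lr_opn0 0 (by decide) (.R 1) (Or.inr ⟨1, rfl⟩) [0, 1, 2] (by decide) (by decide) (by decide)),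
    (show LR (↑([2, 1, 0] : List ℕ)) (↑([3] : List ℕ)) (toLF [(.R 2, [2, 1, 0, 3]), (.E, [0, 2, 3])]) from lr_opn0 5 (by decide) (.R 2) (Or.inr ⟨2, rfl⟩) [2, 1, 0, 3] (by decide) (by decide) (by decide)), by decide⟩⟩

theorem c_P4_split_0_4 : Ans2 4 (toLF [(.R 1, [0, 1, 2, 3, 2]), (.R 2, [2, 1, 0])]) :=
  Or.inl ⟨0, 2, 1, ↑([] : List ℕ), ↑([3] : List ℕ), toLF [(.R 2, [0, 2, 1])], toLF [(.R 1, [2, 0, 1, 2, 3])], by decide,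
    (show LR (↑([0, 2, 1] : List ℕ)) (↑([] : List ℕ)) (toLF [(.R 2, [0, 2, 1])]) from lr_opn0 0 (by decide) (.R 2) (Or.inr ⟨2, rfl⟩) [0, 2, 1] (by decide) (by decide) (by decide)),
    (show LR (↑([1, 2, 0] : List ℕ)) (↑([3] : List ℕ)) (toLF [(.R 1, [2, 0, 1, 2, 3])]) from lr_opn0 1 (by decide) (.R 1) (Or.inr ⟨1, rfl⟩) [2, 0, 1, 3] (by decide) (by decide) (by decide)), by decide⟩

theorem c_P4_split_1_3 : Ans2 4 (toLF [(.R 1, [1, 2, 3]), (.R 2, [3, 2, 1, 0, 1])]) :=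
  Or.inl ⟨1, 2, 3, ↑([] : List ℕ), ↑([0] : List ℕ), toLF [(.R 1, [1, 2, 3])], toLF [(.R 2, [1, 3, 2, 1, 0])], by decide,
    (show LR (↑([1, 2, 3] : List ℕ)) (↑([] : List ℕ)) (toLF [(.R 1, [1, 2, 3])]) from lr_opn0 0 (by decide) (.R 1) (Or.inr ⟨1, rfl⟩) [1, 2, 3] (by decide) (by decide) (by decide)),
    (show LR (↑([3, 2, 1] : List ℕ)) (↑([0] : List ℕ)) (toLF [(.R 2, [1, 3, 2, 1, 0])]) from lr_opn0 1 (by decide) (.R 2) (Or.inr ⟨2, rfl⟩) [1, 3, 2, 0] (by decide) (by decide) (by decide)), by decide⟩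

theorem c_P4_split_3_5 : Ans2 4 (toLF [(.R 1, [3, 2, 1]), (.R 2, [1, 0, 1, 2, 3])]) :=
  Or.inl ⟨1, 3, 2, ↑([] : List ℕ), ↑([0] : List ℕ), toLF [(.R 1, [1, 3, 2])], toLF [(.R 2, [1, 2, 3, 1, 0])], by decide,
    (show LR (↑([1, 3, 2] : List ℕ)) (↑([] : List ℕ)) (toLF [(.R 1, [1, 3, 2])]) from lr_opn0 0 (by decide) (.R 1) (Or.inr ⟨1, rfl⟩) [1, 3, 2] (by decide) (by decide) (by decide)),
    (show LR (↑([2, 3, 1] : List ℕ)) (↑([0] : List ℕ)) (toLF [(.R 2, [1, 2, 3, 1, 0])]) from lr_opn0 1 (by decide) (.R 2) (Or.inr ⟨2, rfl⟩) [1, 2, 3, 0] (by decide) (by decide) (by decide)), by decide⟩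

theorem c_P4_att_0 : Ans2 5 (toLF [(.R 0, [0, 4, 0, 1, 2, 3, 2, 1])]) :=
  Or.inr ⟨toLF [(.R 0, [0, 4, 0, 1, 2]), (.E, [2, 3, 2, 1, 0])], LMove.mkR 0 0 2 [4, 0, 1] [3, 2, 1] (toLF []) _ _ (by decide) (by decide) (by decide) (by decide),
  ⟨0, 1, 2, ↑([4] : List ℕ), ↑([3] : List ℕ), toLF [(.R 0, [0, 1, 2, 0, 4])], toLF [(.E, [2, 1, 0, 2, 3])], by decide,
    (show LR (↑([0, 1, 2] : List ℕ)) (↑([4] : List ℕ)) (toLF [(.R 0, [0, 1, 2, 0, 4])]) from lr_opn0 1 (by decide) (.R 0) (Or.inr ⟨0, rfl⟩) [0, 1, 2, 4] (by decide) (by decide) (by decide)),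
    (show LR (↑([2, 1, 0] : List ℕ)) (↑([3] : List ℕ)) (toLF [(.E, [2, 1, 0, 2, 3])]) from lr_opn0 1 (by decide) .E (Or.inl rfl) [2, 1, 0, 3] (by decide) (by decide) (by decide)), by decide⟩⟩

theorem c_P4_att_1 : Ans2 5 (toLF [(.R 0, [1, 4, 1, 2, 3, 2, 1, 0])]) :=
  Or.inr ⟨toLF [(.R 0, [1, 4, 1, 2, 3]), (.E, [3, 2, 1, 0, 1])], LMove.mkR 0 1 3 [4, 1, 2] [2, 1, 0] (toLF []) _ _ (by decide) (by decide) (by decide) (by decide),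
  ⟨1, 2, 3, ↑([4] : List ℕ), ↑([0] : List ℕ), toLF [(.R 0, [1, 2, 3, 1, 4])], toLF [(.E, [1, 3, 2, 1, 0])], by decide,
    (show LR (↑([1, 2, 3] : List ℕ)) (↑([4] : List ℕ)) (toLF [(.R 0, [1, 2, 3, 1, 4])]) from lr_opn0 1 (by decide) (.R 0) (Or.inr ⟨0, rfl⟩) [1, 2, 3, 4] (by decide) (by decide) (by decide)),
    (show LR (↑([3, 2, 1] : List ℕ)) (↑([0] : List ℕ)) (toLF [(.E, [1, 3, 2, 1, 0])]) from lr_opn0 1 (by decide) .E (Or.inl rfl) [1, 3, 2, 0] (by decide) (by decide) (by decide)), by decide⟩⟩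

theorem c_P4_att_2 : Ans2 5 (toLF [(.R 0, [2, 4, 2, 3, 2, 1, 0, 1])]) :=
  Or.inr ⟨toLF [(.R 0, [4, 2, 3]), (.E, [3, 2, 1, 0, 1, 2, 4])], LMove.mkR 0 4 3 [2] [2, 1, 0, 1, 2] (toLF []) _ _ (by decide) (by decide) (by decide) (by decide),
  ⟨2, 3, 4, ↑([] : List ℕ), ↑([1, 0] : List ℕ), toLF [(.R 0, [2, 3, 4])], toLF [(.E, [2, 4, 3, 2, 1, 0, 1])], by decide,
    (show LR (↑([2, 3, 4] : List ℕ)) (↑([] : List ℕ)) (toLF [(.R 0, [2, 3, 4])]) from lr_opn0 0 (by decide) (.R 0) (Or.inr ⟨0, rfl⟩) [2, 3, 4] (by decide) (by decide) (by decide)),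
    (show LR (↑([4, 3, 2] : List ℕ)) (↑([1, 0] : List ℕ)) (toLF [(.E, [2, 4, 3, 2, 1, 0, 1])]) from lr_opn0 2 (by decide) .E (Or.inl rfl) [2, 4, 3, 1, 0] (by decide) (by decide) (by decide)), by decide⟩⟩

theorem c_P4_att_3 : Ans2 5 (toLF [(.R 0, [3, 4, 3, 2, 1, 0, 1, 2])]) :=
  Or.inr ⟨toLF [(.R 0, [3, 4, 3, 2, 1]), (.E, [1, 0, 1, 2, 3])], LMove.mkR 0 3 1 [4, 3, 2] [0, 1, 2] (toLF []) _ _ (by decide) (by decide) (by decide) (by decide),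
  ⟨1, 2, 3, ↑([0] : List ℕ), ↑([4] : List ℕ), toLF [(.E, [1, 2, 3, 1, 0])], toLF [(.R 0, [3, 2, 1, 3, 4])], by decide,
    (show LR (↑([1, 2, 3] : List ℕ)) (↑([0] : List ℕ)) (toLF [(.E, [1, 2, 3, 1, 0])]) from lr_opn0 1 (by decide) .E (Or.inl rfl) [1, 2, 3, 0] (by decide) (by decide) (by decide)),
    (show LR (↑([3, 2, 1] : List ℕ)) (↑([4] : List ℕ)) (toLF [(.R 0, [3, 2, 1, 3, 4])]) from lr_opn0 1 (by decide) (.R 0) (Or.inr ⟨0, rfl⟩) [3, 2, 1, 4] (by decide) (by decide) (by decide)), by decide⟩⟩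

theorem c_P4_att_4 : Ans2 5 (toLF [(.R 0, [2, 4, 2, 1, 0, 1, 2, 3])]) :=
  Or.inr ⟨toLF [(.R 0, [2, 4, 2, 1, 0]), (.E, [0, 1, 2, 3, 2])], LMove.mkR 0 2 0 [4, 2, 1] [1, 2, 3] (toLF []) _ _ (by decide) (by decide) (by decide) (by decide),
  ⟨2, 0, 1, ↑([3] : List ℕ), ↑([4] : List ℕ), toLF [(.E, [2, 0, 1, 2, 3])], toLF [(.R 0, [2, 1, 0, 2, 4])], by decide,
    (show LR (↑([2, 0, 1] : List ℕ)) (↑([3] : List ℕ)) (toLF [(.E, [2, 0, 1, 2, 3])]) from lr_opn0 1 (by decide) .E (Or.inl rfl) [2, 0, 1, 3] (by decide) (by decide) (by decide)),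
    (show LR (↑([1, 0, 2] : List ℕ)) (↑([4] : List ℕ)) (toLF [(.R 0, [2, 1, 0, 2, 4])]) from lr_opn0 1 (by decide) (.R 0) (Or.inr ⟨0, rfl⟩) [2, 1, 0, 4] (by decide) (by decide) (by decide)), by decide⟩⟩

theorem c_P4_att_5 : Ans2 5 (toLF [(.R 0, [1, 4, 1, 0, 1, 2, 3, 2])]) :=
  Or.inr ⟨toLF [(.R 0, [4, 1, 0]), (.E, [0, 1, 2, 3, 2, 1, 4])], LMove.mkR 0 4 0 [1] [1, 2, 3, 2, 1] (toLF []) _ _ (by decide) (by decide) (by decide) (by decide),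
  ⟨0, 4, 1, ↑([] : List ℕ), ↑([2, 3] : List ℕ), toLF [(.R 0, [0, 4, 1])], toLF [(.E, [1, 4, 0, 1, 2, 3, 2])], by decide,
    (show LR (↑([0, 4, 1] : List ℕ)) (↑([] : List ℕ)) (toLF [(.R 0, [0, 4, 1])]) from lr_opn0 0 (by decide) (.R 0) (Or.inr ⟨0, rfl⟩) [0, 4, 1] (by decide) (by decide) (by decide)),
    (show LR (↑([1, 4, 0] : List ℕ)) (↑([2, 3] : List ℕ)) (toLF [(.E, [1, 4, 0, 1, 2, 3, 2])]) from lr_opn0 2 (by decide) .E (Or.inl rfl) [1, 4, 0, 2, 3] (by decide) (by decide) (by decide)), by decide⟩⟩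

theorem c_P4_pass : ∃ L', LMove (toLF [(.R 0, [0, 1, 2, 3, 2, 1])]) L' ∧ TwoL 4 L' :=
  ⟨toLF [(.R 0, [0, 1, 2]), (.E, [2, 3, 2, 1, 0])], LMove.mkR 0 0 2 [1] [3, 2, 1] (toLF []) _ _ (by decide) (by decide) (by decide) (by decide),
  ⟨0, 1, 2, ↑([] : List ℕ), ↑([3] : List ℕ), toLF [(.R 0, [0, 1, 2])], toLF [(.E, [2, 1, 0, 2, 3])], by decide,
    (show LR (↑([0, 1, 2] : List ℕ)) (↑([] : List ℕ)) (toLF [(.R 0, [0, 1, 2])]) from lr_opn0 0 (by decide) (.R 0) (Or.inr ⟨0, rfl⟩) [0, 1, 2] (by decide) (by decide) (by decide)),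
    (show LR (↑([2, 1, 0] : List ℕ)) (↑([3] : List ℕ)) (toLF [(.E, [2, 1, 0, 2, 3])]) from lr_opn0 1 (by decide) .E (Or.inl rfl) [2, 1, 0, 3] (by decide) (by decide) (by decide)), by decide⟩⟩

lemma spl_P4 : ∀ s ∈ spl1 [] [0, 1, 2, 3, 2, 1], s.1 ≠ s.2.1 → ¬ LAdj (toLF [(.R 0, [0, 1, 2, 3, 2, 1])]) s.1 s.2.1 →
    Ans2 4 ((.R 1, (↑s.2.2.1 : Cycle ℕ)) ::ₘ {(.R 2, (↑s.2.2.2 : Cycle ℕ))}) := by
  intro s hs
  simp only [spl1, spl2, List.nil_append, List.cons_append, List.append_nil, List.mem_cons, List.not_mem_nil, or_false] at hs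
  casesm* _ ∨ _ <;> subst_vars <;> first | exact fun _ _ => c_P4_split_0_2 | exact fun _ _ => c_P4_split_0_3 | exact fun _ _ => c_P4_split_0_4 | exact fun _ _ => c_P4_split_1_3 | exact fun _ _ => c_P4_split_3_5 | exact fun h1 _ => absurd rfl h1 | exact fun _ h2 => absurd (by decide) h2

lemma at_P4 (u : ℕ) (l : List ℕ) (h : [0, 1, 2, 3, 2, 1] ~r (u :: l)) :
    Ans2 5 {(.R 0, (↑(joinWalk u l 4 []) : Cycle ℕ))} := by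
  have h' : (u, l) ∈ rotsL [0, 1, 2, 3, 2, 1] := mem_rotsL h
  rw [show rotsL [0, 1, 2, 3, 2, 1] = [(0, [1, 2, 3, 2, 1]), (1, [2, 3, 2, 1, 0]), (2, [3, 2, 1, 0, 1]), (3, [2, 1, 0, 1, 2]), (2, [1, 0, 1, 2, 3]), (1, [0, 1, 2, 3, 2])] from by decide] at h'
  simp only [List.mem_cons, Prod.mk.injEq, List.not_mem_nil, or_false] at h'
  rcases h' with ⟨rfl, rfl⟩ | ⟨rfl, rfl⟩ | ⟨rfl, rfl⟩ | ⟨rfl, rfl⟩ | ⟨rfl, rfl⟩ | ⟨rfl, rfl⟩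
  · exact c_P4_att_0
  · exact c_P4_att_1
  · exact c_P4_att_2
  · exact c_P4_att_3
  · exact c_P4_att_4
  · exact c_P4_att_5

lemma pre_of {N : ℕ} {r : List ℕ}
    (h1 : ∀ s ∈ spl1 [] r, s.1 ≠ s.2.1 → ¬ LAdj (toLF [(.R 0, r)]) s.1 s.2.1 →
      Ans2 N ((.R 1, (↑s.2.2.1 : Cycle ℕ)) ::ₘ {(.R 2, (↑s.2.2.2 : Cycle ℕ))}))
    (h2 : ∀ (u : ℕ) (l : List ℕ), r ~r (u :: l) →
      Ans2 (N + 1) {(.R 0, (↑(joinWalk u l N []) : Cycle ℕ))})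
    (h3 : ∃ L', LMove (toLF [(.R 0, r)]) L' ∧ TwoL N L') : Pre N r := by
  refine ⟨?_, h2, h3⟩
  intro p l q u v hr huv hadj
  have := h1 _ (mem_spl1 p [] r u l v q hr) huv hadj
  simpa using this

theorem pf_OPA : T_OPA :=
  ⟨pre_of spl_P3 at_P3 c_P3_pass, pre_of spl_P4 at_P4 c_P4_pass⟩

end Pool.Agent.H81.DG
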